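import Pool.Agent.Q230.WL.Game

/-!
# Bilinear equations on pairs of distributions and tests
-/

set_option autoImplicit false

namespace Pool.Agent.Q230.WL

open Finset

/-- a rule `(w, j, l)`: `w = 0` is the cells of row `j`, `w = 1` the cells of column `l`, `w = 2`
the cell `(j, l)` -/
abbrev Rule : Type := ℕ × ℕ × ℕ

/-- the cell matches the rule -/
def mt (j l : ℕ) (r : Rule) : Bool :=
  (decide (r.1 = 1) || decide (r.2.1 = j)) && (decide (r.1 = 0) || decide (r.2.2 = l))

/-- the weight of a rule -/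
noncomputable def wt (Y Z : ℕ → ℝ) (r : Rule) : ℝ :=
  (if r.1 = 1 then 1 else Y r.2.1) * (if r.1 = 0 then 1 else Z r.2.2)

/-- no cell matches both rules -/
def Dj (r r' : Rule) : Prop :=
  (r.1 ≠ 1 ∧ r'.1 ≠ 1 ∧ r.2.1 ≠ r'.2.1) ∨ (r.1 ≠ 0 ∧ r'.1 ≠ 0 ∧ r.2.2 ≠ r'.2.2)

/-- the indices are in range -/
def Rg (n : ℕ) (r : Rule) : Prop := (r.1 = 1 ∨ r.2.1 < n) ∧ (r.1 = 0 ∨ r.2.2 < n)

theorem Dj.not_both {r r' : Rule} (h : Dj r r') {j l : ℕ} (h1 : mt j l r = true)
    (h2 : mt j l r' = true) : False := by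
  unfold mt at h1 h2
  simp only [Bool.and_eq_true, Bool.or_eq_true, decide_eq_true_eq] at h1 h2
  unfold Dj at h
  omega

/-- the indicator of a list of rules -/
def ind (L : List Rule) (j l : ℕ) : ℝ := if L.any (mt j l) = true then 1 else 0

theorem ind_eq {L : List Rule} (h : L.Pairwise Dj) (j l : ℕ) :
    ind L j l = (L.map fun r => if mt j l r = true then (1 : ℝ) else 0).sum := by
  induction L with
  | nil => simp [ind]
  | cons r L ih =>
    rw [List.pairwise_cons] at h
    rw [List.map_cons, List.sum_cons, ← ih h.2]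
    unfold ind
    rw [List.any_cons]
    by_cases h1 : mt j l r = true
    · have h2 : L.any (mt j l) = false := by
        rw [Bool.eq_false_iff]
        intro h2
        rw [List.any_eq_true] at h2
        obtain ⟨r', hr', h3⟩ := h2
        exact (h.1 r' hr').not_both h1 h3
      rw [h1, h2]
      simp
    · rw [Bool.not_eq_true] at h1
      rw [h1, Bool.false_or]
      simp only [Bool.false_eq_true, if_false, zero_add]

theorem sum_mt {n : ℕ} {Y Z : ℕ → ℝ} (hY : Mixed n Y) (hZ : Mixed n Z) {r : Rule} (hr : Rg n r) :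
    ∑ j ∈ range n, ∑ l ∈ range n, Y j * Z l * (if mt j l r = true then (1 : ℝ) else 0) =
      wt Y Z r := by
  have h1 : ∀ j l, Y j * Z l * (if mt j l r = true then (1 : ℝ) else 0) =
      (Y j * (if r.1 = 1 ∨ r.2.1 = j then 1 else 0)) *
        (Z l * (if r.1 = 0 ∨ r.2.2 = l then 1 else 0)) := by
    intro j l
    unfold mt
    simp only [Bool.and_eq_true, Bool.or_eq_true, decide_eq_true_eq]
    by_cases h1 : r.1 = 1 ∨ r.2.1 = j <;> by_cases h2 : r.1 = 0 ∨ r.2.2 = l <;> simp [h1, h2]
  simp only [h1, ← mul_sum, ← sum_mul]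
  unfold wt
  congr 1
  · by_cases h : r.1 = 1
    · simp only [h, true_or, if_true, mul_one]
      exact hY.2
    · rw [if_neg h, sum_eq_single_of_mem r.2.1 (mem_range.2 (hr.1.resolve_left h))]
      · simp
      · intro j _ hj
        rw [if_neg (by rintro (h' | h'); exacts [h h', hj h'.symm]), mul_zero]
  · by_cases h : r.1 = 0
    · simp only [h, true_or, if_true, mul_one]
      exact hZ.2
    · rw [if_neg h, sum_eq_single_of_mem r.2.2 (mem_range.2 (hr.2.resolve_left h))]
      · simp
      · intro j _ hj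
        rw [if_neg (by rintro (h' | h'); exacts [h h', hj h'.symm]), mul_zero]

theorem sum_ind {n : ℕ} {Y Z : ℕ → ℝ} (hY : Mixed n Y) (hZ : Mixed n Z) {L : List Rule}
    (hL : L.Pairwise Dj) (hr : ∀ r ∈ L, Rg n r) :
    ∑ j ∈ range n, ∑ l ∈ range n, Y j * Z l * ind L j l = (L.map (wt Y Z)).sum := by
  simp only [ind_eq hL]
  clear hL
  induction L with
  | nil => simp
  | cons r L ih =>
    rw [List.map_cons, List.sum_cons, ← ih (fun r hr' => hr r (List.mem_cons_of_mem _ hr')),
      ← sum_mt hY hZ (hr r List.mem_cons_self), ← sum_add_distrib]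
    refine sum_congr rfl fun j _ => ?_
    rw [← sum_add_distrib]
    refine sum_congr rfl fun l _ => ?_
    rw [List.map_cons, List.sum_cons]
    ring

/-- a test: two lists of rules and the index of a flipped row -/
abbrev Test : Type := List Rule × List Rule × ℕ

/-- the value of a test -/
def mv (t : Test) (b l : ℕ) : Bool :=
  if t.1.any (mt (b / 2) l) = t.2.1.any (mt (b / 2) l) then
    xor (decide (b % 2 = 0)) (decide (b / 2 = t.2.2)) else t.1.any (mt (b / 2) l)

/-- the tests of a list -/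
def MM (K : List Test) (t b l : ℕ) : Bool := mv (K.getD t ([], [], 0)) b l

/-- the expected value of one test -/
noncomputable def ev1 (n : ℕ) (t : Test) (y z : ℕ → ℝ) : ℝ :=
  ∑ b ∈ range (2 * n), ∑ l ∈ range n, y b * z l * (if mv t b l = true then 1 else 0)

theorem ex_iff {n : ℕ} {K : List Test} {y z : ℕ → ℝ} :
    (∀ t < K.length, ex n (MM K) t y z = 1 / 2) ↔ ∀ t ∈ K, ev1 n t y z = 1 / 2 := by
  constructor
  · intro h t ht
    obtain ⟨i, hi, rfl⟩ := List.getElem_of_mem ht
    have := h i hi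
    unfold ex tv MM at this
    rw [List.getD_eq_getElem _ _ hi] at this
    exact this
  · intro h i hi
    have := h K[i] (List.getElem_mem hi)
    unfold ex tv MM
    rw [List.getD_eq_getElem _ _ hi]
    exact this

theorem sum_two (m : ℕ) (F : ℕ → ℝ) : ∑ a ∈ range (2 * m), F a =
    ∑ t ∈ range m, (F (2 * t) + F (2 * t + 1)) := by
  induction m with
  | zero => simp
  | succ m ih =>
    rw [show 2 * (m + 1) = 2 * m + 1 + 1 by ring, sum_range_succ, sum_range_succ, ih,
      sum_range_succ]
    ring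

/-- the expected value of a test that flips a row -/
theorem ev_flip {n f : ℕ} {y z : ℕ → ℝ} (hz : Mixed n z) : ev1 n ([], [], f) y z =
    ∑ j ∈ range n, (if j = f then y (2 * j + 1) else y (2 * j)) := by
  unfold ev1
  rw [sum_two]
  refine sum_congr rfl fun j _ => ?_
  have h0 : ∀ l, mv ([], [], f) (2 * j) l = !decide (j = f) := by
    intro l
    unfold mv
    rw [show 2 * j / 2 = j by omega, show 2 * j % 2 = 0 by omega]
    simp
  have h1 : ∀ l, mv ([], [], f) (2 * j + 1) l = decide (j = f) := by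
    intro l
    unfold mv
    rw [show (2 * j + 1) / 2 = j by omega, show (2 * j + 1) % 2 = 1 by omega]
    simp
  simp only [h0, h1]
  by_cases hj : j = f
  · simp [hj, ← mul_sum, hz.2]
  · simp [hj, ← mul_sum, hz.2]

/-- the expected value of a test when the bits are balanced -/
theorem ev_lin {n : ℕ} {y Y z : ℕ → ℝ} (hY : Mixed n Y) (hz : Mixed n z)
    (h0 : ∀ j < n, y (2 * j) = Y j / 2) (h1 : ∀ j < n, y (2 * j + 1) = Y j / 2)
    {P N : List Rule} (hP : P.Pairwise Dj) (hN : N.Pairwise Dj) (hP' : ∀ r ∈ P, Rg n r)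
    (hN' : ∀ r ∈ N, Rg n r) : ev1 n (P, N, n) y z =
      1 / 2 + ((P.map (wt Y z)).sum - (N.map (wt Y z)).sum) / 2 := by
  have htot : ∑ j ∈ range n, ∑ l ∈ range n, Y j * z l = 1 := by
    simp only [← mul_sum, hz.2, mul_one]
    exact hY.2
  rw [← sum_ind hY hz hP hP', ← sum_ind hY hz hN hN', ← htot]
  unfold ev1
  rw [sum_two, sum_div, ← sum_sub_distrib, sum_div, ← sum_add_distrib]
  refine sum_congr rfl fun j hj => ?_
  rw [mem_range] at hj
  rw [sum_div, ← sum_sub_distrib, sum_div, ← sum_add_distrib, ← sum_add_distrib]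
  refine sum_congr rfl fun l _ => ?_
  rw [h0 j hj, h1 j hj]
  unfold mv ind
  rw [show 2 * j / 2 = j by omega, show 2 * j % 2 = 0 by omega,
    show (2 * j + 1) / 2 = j by omega, show (2 * j + 1) % 2 = 1 by omega]
  have hjn : ¬ j = n := by omega
  cases h2 : P.any (mt j l) <;> cases h3 : N.any (mt j l) <;> simp [hjn, h2, h3] <;> ring

/-- the tests of a system of bilinear equations -/
def tests (n : ℕ) (R : List (List Rule × List Rule)) : List Test :=
  ([], [], n) :: ((List.range n).map (fun j => ([], [], j)) ++ R.map fun r => (r.1, r.2, n))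

/-- a well formed equation -/
def WF (n : ℕ) (r : List Rule × List Rule) : Prop :=
  r.1.Pairwise Dj ∧ r.2.Pairwise Dj ∧ (∀ q ∈ r.1, Rg n q) ∧ ∀ q ∈ r.2, Rg n q

/-- solvability of a bilinear system -/
def Solv (n : ℕ) (R : List (List Rule × List Rule)) : Prop :=
  ∃ Y Z, Mixed n Y ∧ Mixed n Z ∧ ∀ r ∈ R, (r.1.map (wt Y Z)).sum = (r.2.map (wt Y Z)).sum

theorem tests_iff {n : ℕ} {R : List (List Rule × List Rule)} (hR : ∀ r ∈ R, WF n r) :
    (∃ y z, Mixed (2 * n) y ∧ Mixed n z ∧ ∀ t ∈ tests n R, ev1 n t y z = 1 / 2) ↔ Solv n R := by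
  constructor
  · rintro ⟨y, z, hy, hz, h⟩
    have h1 := h ([], [], n) (by simp [tests])
    rw [ev_flip hz] at h1
    have h1' : ∑ j ∈ range n, y (2 * j) = 1 / 2 := by
      rw [← h1]
      refine sum_congr rfl fun j hj => ?_
      rw [mem_range] at hj
      rw [if_neg (by omega)]
    have h2 : ∀ j < n, y (2 * j + 1) = y (2 * j) := by
      intro j hj
      have h3 := h ([], [], j) (by simp [tests, hj])
      rw [ev_flip hz, ← h1', ← sub_eq_zero, ← sum_sub_distrib,
        sum_eq_single_of_mem j (mem_range.2 hj)] at h3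
      · rw [if_pos rfl] at h3
        linarith
      · intro i _ hi
        rw [if_neg hi, sub_self]
    have hY : Mixed n (fun j => y (2 * j) + y (2 * j + 1)) := by
      refine ⟨fun j hj => add_nonneg (hy.1 _ (by omega)) (hy.1 _ (by omega)), ?_⟩
      rw [← sum_two]
      exact hy.2
    refine ⟨_, z, hY, hz, fun r hr => ?_⟩
    obtain ⟨w1, w2, w3, w4⟩ := hR r hr
    have h4 := h (r.1, r.2, n) (by
      unfold tests
      refine List.mem_cons_of_mem _ (List.mem_append_right _ (List.mem_map.2 ⟨r, hr, rfl⟩)))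
    rw [ev_lin hY hz (fun j hj => by rw [h2 j hj]; ring) (fun j hj => by rw [h2 j hj]; ring)
      w1 w2 w3 w4] at h4
    linarith
  · rintro ⟨Y, Z, hY, hZ, h⟩
    have e0 : ∀ j, (fun b => Y (b / 2) / 2) (2 * j) = Y j / 2 := by
      intro j; simp only; rw [show 2 * j / 2 = j by omega]
    have e1 : ∀ j, (fun b => Y (b / 2) / 2) (2 * j + 1) = Y j / 2 := by
      intro j; simp only; rw [show (2 * j + 1) / 2 = j by omega]
    refine ⟨fun b => Y (b / 2) / 2, Z, ⟨fun b hb => ?_, ?_⟩, hZ, ?_⟩
    · have := hY.1 (b / 2) (by omega)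
      simp only
      linarith
    · rw [sum_two, ← hY.2]
      refine sum_congr rfl fun j _ => ?_
      rw [show 2 * j / 2 = j by omega, show (2 * j + 1) / 2 = j by omega]
      ring
    · have hflip : ∀ f, ev1 n ([], [], f) (fun b => Y (b / 2) / 2) Z = 1 / 2 := by
        intro f
        rw [ev_flip hZ]
        have : ∀ j ∈ range n, (if j = f then (fun b => Y (b / 2) / 2) (2 * j + 1) else
            (fun b => Y (b / 2) / 2) (2 * j)) = Y j / 2 := by
          intro j _
          rw [e0, e1]
          simp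
        rw [sum_congr rfl this, ← sum_div, hY.2]
      intro t ht
      unfold tests at ht
      rw [List.mem_cons, List.mem_append, List.mem_map, List.mem_map] at ht
      rcases ht with rfl | ⟨j, -, rfl⟩ | ⟨r, hr, rfl⟩
      · exact hflip n
      · exact hflip j
      · obtain ⟨w1, w2, w3, w4⟩ := hR r hr
        rw [ev_lin hY hZ (fun j _ => e0 j) (fun j _ => e1 j) w1 w2 w3 w4, h r hr]
        ring

/-- the game of a bilinear system -/
def bgame (n : ℕ) (R : List (List Rule × List Rule)) : Game :=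
  gam (tests n R).length n (MM (tests n R))

theorem bgame_iff {n : ℕ} (hn : 0 < n) {R : List (List Rule × List Rule)}
    (hR : ∀ r ∈ R, WF n r) : PONE (bgame n R) ↔ Solv n R := by
  unfold bgame
  rw [pone_iff (by simp [tests]) hn, ← tests_iff hR]
  simp only [ex_iff]

end Pool.Agent.Q230.WL
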