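import Pool.Agent.ER.Defs

/-!
# Pareto optimal Nash equilibria in three-player win-lose games: definitions
-/

set_option autoImplicit false

namespace Pool.Agent.Q230.WL

open Finset

/-- A three-player win-lose game, given as a table: the entry with the indices `a`, `b`, `c` (the
pure strategies of the three players) says for each player whether it wins (payoff 1) or loses
(payoff 0). -/
abbrev Game : Type := List (List (List (Bool × Bool × Bool)))

/-- The table has the shape `n₁ × n₂ × n₃` and every player has at least one pure strategy. -/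
def Shape (G : Game) (n₁ n₂ n₃ : ℕ) : Prop :=
  1 ≤ n₁ ∧ 1 ≤ n₂ ∧ 1 ≤ n₃ ∧ G.length = n₁ ∧ ∀ R ∈ G, R.length = n₂ ∧ ∀ l ∈ R, l.length = n₃

/-- The entry of the table. -/
def entry (G : Game) (a b c : ℕ) : Bool × Bool × Bool :=
  ((G.getD a []).getD b []).getD c (false, false, false)

/-- The payoff of player `i` (`i = 0, 1, 2`) in an entry of the table. -/
def pay (i : ℕ) (e : Bool × Bool × Bool) : ℝ :=
  if (if i = 0 then e.1 else if i = 1 then e.2.1 else e.2.2) = true then 1 else 0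

/-- `x` is a probability distribution on the pure strategies `0, …, n-1`. -/
def Mixed (n : ℕ) (x : ℕ → ℝ) : Prop := (∀ a < n, 0 ≤ x a) ∧ ∑ a ∈ range n, x a = 1

/-- The expected payoff of player `i` in the mixed profile `(x, y, z)`. -/
noncomputable def U (G : Game) (n₁ n₂ n₃ i : ℕ) (x y z : ℕ → ℝ) : ℝ :=
  ∑ a ∈ range n₁, ∑ b ∈ range n₂, ∑ c ∈ range n₃, x a * y b * z c * pay i (entry G a b c)

/-- `(x, y, z)` is a Nash equilibrium. -/
def IsNash (G : Game) (n₁ n₂ n₃ : ℕ) (x y z : ℕ → ℝ) : Prop :=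
  Mixed n₁ x ∧ Mixed n₂ y ∧ Mixed n₃ z ∧
  (∀ x', Mixed n₁ x' → U G n₁ n₂ n₃ 0 x' y z ≤ U G n₁ n₂ n₃ 0 x y z) ∧
  (∀ y', Mixed n₂ y' → U G n₁ n₂ n₃ 1 x y' z ≤ U G n₁ n₂ n₃ 1 x y z) ∧
  (∀ z', Mixed n₃ z' → U G n₁ n₂ n₃ 2 x y z' ≤ U G n₁ n₂ n₃ 2 x y z)

/-- No mixed profile is at least as good for all three players and better for one of them. -/
def ParetoOptimal (G : Game) (n₁ n₂ n₃ : ℕ) (x y z : ℕ → ℝ) : Prop :=
  ∀ x' y' z', Mixed n₁ x' → Mixed n₂ y' → Mixed n₃ z' →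
    ¬ ((∀ i < 3, U G n₁ n₂ n₃ i x y z ≤ U G n₁ n₂ n₃ i x' y' z') ∧
      ∃ i < 3, U G n₁ n₂ n₃ i x y z < U G n₁ n₂ n₃ i x' y' z')

/-- The decision problem PONE-WL: the game has a Pareto optimal Nash equilibrium. -/
def PONE (G : Game) : Prop :=
  ∃ n₁ n₂ n₃, Shape G n₁ n₂ n₃ ∧ ∃ x y z, IsNash G n₁ n₂ n₃ x y z ∧
    ParetoOptimal G n₁ n₂ n₃ x y z

end Pool.Agent.Q230.WL
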