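import Pool.Agent.Q230.WL.Defs

/-!
# The game
-/

set_option autoImplicit false

namespace Pool.Agent.Q230.WL

open Finset

/-- a cell of the game with the tests `M` -/
def cell (n : ℕ) (M : ℕ → ℕ → ℕ → Bool) (a b c : ℕ) : Bool × Bool × Bool :=
  if b < 2 * n then
    (xor (M (a / 2) b c) (decide (a % 2 = 1)), !(xor (M (a / 2) b c) (decide (a % 2 = 1))),
      !(xor (M (a / 2) b c) (decide (a % 2 = 1))))
  else (false, decide (a % 2 = b - 2 * n), false)

/-- the game -/
def gam (T n : ℕ) (M : ℕ → ℕ → ℕ → Bool) : Game :=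
  (List.range (2 * T)).map fun a => (List.range (2 * n + 2)).map fun b =>
    (List.range n).map fun c => cell n M a b c

theorem shape_gam {T n : ℕ} (hT : 0 < T) (hn : 0 < n) (M : ℕ → ℕ → ℕ → Bool) :
    Shape (gam T n M) (2 * T) (2 * n + 2) n := by
  refine ⟨by omega, by omega, hn, by simp [gam], ?_⟩
  intro R hR
  obtain ⟨a, -, rfl⟩ := List.mem_map.1 hR
  refine ⟨by simp, ?_⟩
  intro l hl
  obtain ⟨b, -, rfl⟩ := List.mem_map.1 hl
  simp

theorem shape_unique {G : Game} {n₁ n₂ n₃ m₁ m₂ m₃ : ℕ} (h : Shape G n₁ n₂ n₃)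
    (h' : Shape G m₁ m₂ m₃) : n₁ = m₁ ∧ n₂ = m₂ ∧ n₃ = m₃ := by
  obtain ⟨a1, a2, a3, a4, a5⟩ := h
  obtain ⟨b1, b2, b3, b4, b5⟩ := h'
  rcases G with _ | ⟨R, G⟩
  · simp at a4; omega
  have c1 := a5 R (by simp)
  have c2 := b5 R (by simp)
  rcases R with _ | ⟨l, R⟩
  · simp at c1; omega
  have d1 := c1.2 l (by simp)
  have d2 := c2.2 l (by simp)
  exact ⟨a4.symm.trans b4, c1.1.symm.trans c2.1, d1.symm.trans d2⟩

theorem getD_map_range {β : Type} (f : ℕ → β) (d : β) {m a : ℕ} (ha : a < m) :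
    ((List.range m).map f).getD a d = f a := by
  rw [List.getD_eq_getElem _ _ (by simpa using ha), List.getElem_map, List.getElem_range]

theorem entry_gam {T n : ℕ} (M : ℕ → ℕ → ℕ → Bool) {a b c : ℕ} (ha : a < 2 * T)
    (hb : b < 2 * n + 2) (hc : c < n) : entry (gam T n M) a b c = cell n M a b c := by
  unfold entry gam
  rw [getD_map_range _ _ ha, getD_map_range _ _ hb, getD_map_range _ _ hc]

/-- the value of a test -/
def tv (M : ℕ → ℕ → ℕ → Bool) (t b c : ℕ) : ℝ := if M t b c = true then 1 else 0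

/-- the payoff of the first player inside the team game -/
def g1 (M : ℕ → ℕ → ℕ → Bool) (a b c : ℕ) : ℝ :=
  if a % 2 = 1 then 1 - tv M (a / 2) b c else tv M (a / 2) b c

section

variable {T n : ℕ} {M : ℕ → ℕ → ℕ → Bool}

theorem pay_in {a b c : ℕ} (hb : b < 2 * n) : pay 0 (cell n M a b c) = g1 M a b c ∧
    pay 1 (cell n M a b c) = 1 - g1 M a b c ∧ pay 2 (cell n M a b c) = 1 - g1 M a b c := by
  unfold cell pay g1 tv
  rw [if_pos hb]
  rcases Nat.mod_two_eq_zero_or_one a with h | h <;> rw [h] <;>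
    cases M (a / 2) b c <;> simp

theorem pay_out {a b c : ℕ} (hb : ¬ b < 2 * n) : pay 0 (cell n M a b c) = 0 ∧
    pay 1 (cell n M a b c) = (if a % 2 = b - 2 * n then 1 else 0) ∧
    pay 2 (cell n M a b c) = 0 := by
  unfold cell pay
  rw [if_neg hb]
  simp

theorem g1_nonneg (a b c : ℕ) : 0 ≤ g1 M a b c ∧ g1 M a b c ≤ 1 := by
  unfold g1 tv
  split_ifs <;> norm_num

/-- the value of the first player -/
noncomputable def V (T n : ℕ) (M : ℕ → ℕ → ℕ → Bool) (x y z : ℕ → ℝ) : ℝ :=
  ∑ a ∈ range (2 * T), ∑ b ∈ range (2 * n), ∑ c ∈ range n, x a * y b * z c * g1 M a b c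

/-- the payoff of the outside strategies -/
noncomputable def Qo (T n : ℕ) (x y z : ℕ → ℝ) : ℝ :=
  ∑ a ∈ range (2 * T), ∑ c ∈ range n, (x a * y (2 * n) * z c * (if a % 2 = 0 then 1 else 0) +
    x a * y (2 * n + 1) * z c * (if a % 2 = 1 then 1 else 0))

theorem U_split (i : ℕ) (x y z : ℕ → ℝ) : U (gam T n M) (2 * T) (2 * n + 2) n i x y z =
    (∑ a ∈ range (2 * T), ∑ b ∈ range (2 * n), ∑ c ∈ range n,
      x a * y b * z c * pay i (cell n M a b c)) +
    ∑ a ∈ range (2 * T), ∑ c ∈ range n,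
      (x a * y (2 * n) * z c * pay i (cell n M a (2 * n) c) +
      x a * y (2 * n + 1) * z c * pay i (cell n M a (2 * n + 1) c)) := by
  unfold U
  rw [← sum_add_distrib]
  refine sum_congr rfl fun a ha => ?_
  rw [mem_range] at ha
  rw [sum_range_succ, sum_range_succ, add_assoc, ← sum_add_distrib]
  congr 1
  · refine sum_congr rfl fun b hb => sum_congr rfl fun c hc => ?_
    rw [mem_range] at hb hc
    rw [entry_gam M ha (by omega) hc]
  · refine sum_congr rfl fun c hc => ?_
    rw [mem_range] at hc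
    rw [entry_gam M ha (by omega) hc, entry_gam M ha (by omega) hc]

theorem U0 (x y z : ℕ → ℝ) : U (gam T n M) (2 * T) (2 * n + 2) n 0 x y z = V T n M x y z := by
  rw [U_split]
  unfold V
  rw [add_eq_left.2]
  · refine sum_congr rfl fun a _ => sum_congr rfl fun b hb => sum_congr rfl fun c _ => ?_
    rw [mem_range] at hb
    rw [(pay_in hb).1]
  · refine sum_eq_zero fun a _ => sum_eq_zero fun c _ => ?_
    rw [(pay_out (by omega)).1, (pay_out (by omega)).1]
    ring

/-- the probability of the team game -/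
noncomputable def rr (n : ℕ) (y : ℕ → ℝ) : ℝ := ∑ b ∈ range (2 * n), y b

theorem total {x y z : ℕ → ℝ} (hx : Mixed (2 * T) x) (hz : Mixed n z) :
    ∑ a ∈ range (2 * T), ∑ b ∈ range (2 * n), ∑ c ∈ range n, x a * y b * z c = rr n y := by
  have h1 : ∀ a b, ∑ c ∈ range n, x a * y b * z c = x a * y b := by
    intro a b
    rw [← mul_sum, hz.2, mul_one]
  simp only [h1]
  have h2 : ∀ a, ∑ b ∈ range (2 * n), x a * y b = x a * rr n y := by
    intro a
    rw [← mul_sum, rr]
  simp only [h2]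
  rw [← sum_mul, hx.2, one_mul]

theorem in_compl {x y z : ℕ → ℝ} (hx : Mixed (2 * T) x) (hz : Mixed n z) :
    ∑ a ∈ range (2 * T), ∑ b ∈ range (2 * n), ∑ c ∈ range n, x a * y b * z c * (1 - g1 M a b c) =
      rr n y - V T n M x y z := by
  rw [← total (T := T) (y := y) hx hz]
  unfold V
  rw [← sum_sub_distrib]
  refine sum_congr rfl fun a _ => ?_
  rw [← sum_sub_distrib]
  refine sum_congr rfl fun b _ => ?_
  rw [← sum_sub_distrib]
  refine sum_congr rfl fun c _ => ?_
  ring

theorem U2 {x y z : ℕ → ℝ} (hx : Mixed (2 * T) x) (hz : Mixed n z) :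
    U (gam T n M) (2 * T) (2 * n + 2) n 2 x y z = rr n y - V T n M x y z := by
  rw [U_split, ← in_compl hx hz, add_eq_left.2]
  · refine sum_congr rfl fun a _ => sum_congr rfl fun b hb => sum_congr rfl fun c _ => ?_
    rw [mem_range] at hb
    rw [(pay_in hb).2.2]
  · refine sum_eq_zero fun a _ => sum_eq_zero fun c _ => ?_
    rw [(pay_out (by omega)).2.2, (pay_out (by omega)).2.2]
    ring

theorem U1 {x y z : ℕ → ℝ} (hx : Mixed (2 * T) x) (hz : Mixed n z) :
    U (gam T n M) (2 * T) (2 * n + 2) n 1 x y z = rr n y - V T n M x y z + Qo T n x y z := by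
  rw [U_split, ← in_compl hx hz]
  congr 1
  · refine sum_congr rfl fun a _ => sum_congr rfl fun b hb => sum_congr rfl fun c _ => ?_
    rw [mem_range] at hb
    rw [(pay_in hb).2.1]
  · refine sum_congr rfl fun a _ => sum_congr rfl fun c _ => ?_
    rw [(pay_out (by omega)).2.1, (pay_out (by omega)).2.1, Nat.sub_self,
      show 2 * n + 1 - 2 * n = 1 by omega]

/-- the weight of the strategies of a parity -/
noncomputable def pw (T : ℕ) (x : ℕ → ℝ) (β : ℕ) : ℝ :=
  ∑ a ∈ range (2 * T), x a * (if a % 2 = β then 1 else 0)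

theorem Qo_eq {x y z : ℕ → ℝ} (hz : Mixed n z) :
    Qo T n x y z = y (2 * n) * pw T x 0 + y (2 * n + 1) * pw T x 1 := by
  unfold Qo pw
  rw [mul_sum, mul_sum, ← sum_add_distrib]
  refine sum_congr rfl fun a _ => ?_
  rw [sum_add_distrib, ← sum_mul, ← sum_mul, ← mul_sum, ← mul_sum, hz.2]
  ring

theorem pw_add {x : ℕ → ℝ} (hx : Mixed (2 * T) x) : pw T x 0 + pw T x 1 = 1 := by
  unfold pw
  rw [← sum_add_distrib]
  refine Eq.trans (sum_congr rfl fun a _ => ?_) hx.2
  rcases Nat.mod_two_eq_zero_or_one a with h | h <;> simp [h]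

theorem pw_nonneg {x : ℕ → ℝ} (hx : Mixed (2 * T) x) (β : ℕ) : 0 ≤ pw T x β := by
  unfold pw
  refine sum_nonneg fun a ha => mul_nonneg (hx.1 a (mem_range.1 ha)) ?_
  split_ifs <;> norm_num

theorem rr_add {y : ℕ → ℝ} (hy : Mixed (2 * n + 2) y) :
    rr n y + y (2 * n) + y (2 * n + 1) = 1 := by
  have := hy.2
  rw [sum_range_succ, sum_range_succ] at this
  exact this

/-- the expected value of a test -/
noncomputable def ex (n : ℕ) (M : ℕ → ℕ → ℕ → Bool) (t : ℕ) (y z : ℕ → ℝ) : ℝ :=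
  ∑ b ∈ range (2 * n), ∑ c ∈ range n, y b * z c * tv M t b c

/-- the point distribution -/
def pt (i : ℕ) : ℕ → ℝ := fun j => if j = i then 1 else 0

theorem mixed_pt {m i : ℕ} (hi : i < m) : Mixed m (pt i) := by
  refine ⟨fun a _ => ?_, ?_⟩
  · unfold pt; split_ifs <;> norm_num
  · unfold pt
    rw [sum_ite_eq' (range m) i (fun _ => (1 : ℝ)), if_pos (mem_range.2 hi)]

theorem V_pt {i : ℕ} (hi : i < 2 * T) (y z : ℕ → ℝ) : V T n M (pt i) y z =
    ∑ b ∈ range (2 * n), ∑ c ∈ range n, y b * z c * g1 M i b c := by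
  unfold V
  rw [sum_eq_single_of_mem i (mem_range.2 hi)]
  · refine sum_congr rfl fun b _ => sum_congr rfl fun c _ => ?_
    unfold pt
    rw [if_pos rfl, one_mul]
  · intro a _ ha
    refine sum_eq_zero fun b _ => sum_eq_zero fun c _ => ?_
    unfold pt
    rw [if_neg ha]
    ring

theorem V_even {t : ℕ} (ht : t < T) (y z : ℕ → ℝ) :
    V T n M (pt (2 * t)) y z = ex n M t y z := by
  rw [V_pt (by omega)]
  unfold ex g1
  simp only [show 2 * t % 2 = 0 by omega, show 2 * t / 2 = t by omega, zero_ne_one, if_false]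

theorem V_odd {t : ℕ} (ht : t < T) {y z : ℕ → ℝ} (hz : Mixed n z) :
    V T n M (pt (2 * t + 1)) y z = rr n y - ex n M t y z := by
  rw [V_pt (by omega)]
  unfold ex g1 rr
  simp only [show (2 * t + 1) % 2 = 1 by omega, show (2 * t + 1) / 2 = t by omega, if_true]
  rw [← sum_sub_distrib]
  refine sum_congr rfl fun b _ => ?_
  have : y b = ∑ c ∈ range n, y b * z c := by rw [← mul_sum, hz.2, mul_one]
  rw [this, ← sum_sub_distrib]
  refine sum_congr rfl fun c _ => ?_
  rw [← this]
  ring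

/-! ### Soundness -/

theorem V_nonneg {x y z : ℕ → ℝ} (hx : Mixed (2 * T) x) (hy : Mixed (2 * n + 2) y)
    (hz : Mixed n z) : 0 ≤ V T n M x y z := by
  unfold V
  refine sum_nonneg fun a ha => sum_nonneg fun b hb => sum_nonneg fun c hc => ?_
  rw [mem_range] at ha hb hc
  exact mul_nonneg (mul_nonneg (mul_nonneg (hx.1 a ha) (hy.1 b (by omega))) (hz.1 c hc))
    (g1_nonneg a b c).1

theorem V_le {x y z : ℕ → ℝ} (hx : Mixed (2 * T) x) (hy : Mixed (2 * n + 2) y)
    (hz : Mixed n z) : V T n M x y z ≤ rr n y := by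
  rw [← total (T := T) (y := y) hx hz]
  unfold V
  refine sum_le_sum fun a ha => sum_le_sum fun b hb => sum_le_sum fun c hc => ?_
  rw [mem_range] at ha hb hc
  exact mul_le_of_le_one_right (mul_nonneg (mul_nonneg (hx.1 a ha) (hy.1 b (by omega)))
    (hz.1 c hc)) (g1_nonneg a b c).2

/-- the dominating profile: a lottery between the strategies `0` and `1` -/
def lot (p : ℝ) : ℕ → ℝ := fun j => if j = 0 then p else if j = 1 then 1 - p else 0

theorem sum_lot {m : ℕ} (hm : 2 ≤ m) (p : ℝ) (f : ℕ → ℝ) :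
    ∑ a ∈ range m, lot p a * f a = p * f 0 + (1 - p) * f 1 := by
  obtain ⟨k, rfl⟩ := Nat.exists_eq_add_of_le' hm
  rw [sum_range_succ', sum_range_succ']
  simp [lot]
  ring

theorem mixed_lot {m : ℕ} (hm : 2 ≤ m) {p : ℝ} (h0 : 0 ≤ p) (h1 : p ≤ 1) : Mixed m (lot p) := by
  refine ⟨fun a _ => ?_, ?_⟩
  · unfold lot; split_ifs <;> linarith
  · have := sum_lot hm p (fun _ => 1)
    simp only [mul_one] at this
    rw [this]; ring

theorem rr_pt (hn : 0 < n) : rr n (pt 0) = 1 := by
  have := (mixed_pt (m := 2 * n) (i := 0) (by omega)).2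
  exact this

/-- a lottery with a prescribed payoff of the first player -/
theorem exists_lot (hT : 0 < T) (hn : 0 < n) {v : ℝ} (h0 : 0 ≤ v) (h1 : v ≤ 1) :
    ∃ x, Mixed (2 * T) x ∧ V T n M x (pt 0) (pt 0) = v := by
  have hV : ∀ p, V T n M (lot p) (pt 0) (pt 0) = p * g1 M 0 0 0 + (1 - p) * g1 M 1 0 0 := by
    intro p
    unfold V
    have e : ∀ a, ∑ b ∈ range (2 * n), ∑ c ∈ range n, lot p a * pt 0 b * pt 0 c * g1 M a b c =
        lot p a * g1 M a 0 0 := by
      intro a
      rw [sum_eq_single_of_mem 0 (mem_range.2 (by omega)), sum_eq_single_of_mem 0 (mem_range.2 hn)]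
      · simp [pt]
      · intro c _ hc
        simp [pt, hc]
      · intro b _ hb
        refine sum_eq_zero fun c _ => ?_
        simp [pt, hb]
    simp only [e]
    exact sum_lot (by omega) p _
  have hg : g1 M 1 0 0 = 1 - g1 M 0 0 0 := by
    unfold g1; simp
  have h01 : g1 M 0 0 0 = 0 ∨ g1 M 0 0 0 = 1 := by
    unfold g1 tv
    simp only [Nat.zero_mod, zero_ne_one, if_false]
    split_ifs <;> simp
  rcases h01 with h | h
  · refine ⟨lot (1 - v), mixed_lot (by omega) (by linarith) (by linarith), ?_⟩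
    rw [hV, hg, h]; ring
  · refine ⟨lot v, mixed_lot (by omega) h0 h1, ?_⟩
    rw [hV, hg, h]; ring

theorem sound (hT : 0 < T) (hn : 0 < n) {x y z : ℕ → ℝ}
    (h : IsNash (gam T n M) (2 * T) (2 * n + 2) n x y z)
    (hp : ParetoOptimal (gam T n M) (2 * T) (2 * n + 2) n x y z) :
    rr n y = 1 ∧ ∀ t < T, ex n M t y z = 1 / 2 := by
  obtain ⟨hx, hy, hz, e1, e2, -⟩ := h
  have hr := rr_add hy
  have q0 := hy.1 (2 * n) (by omega)
  have q1 := hy.1 (2 * n + 1) (by omega)
  have p0 := pw_nonneg hx 0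
  have p1 := pw_nonneg hx 1
  have p2 := pw_add hx
  have hQ : Qo T n x y z ≤ y (2 * n) + y (2 * n + 1) := by
    rw [Qo_eq hz]
    have := mul_le_of_le_one_right q0 (by linarith : pw T x 0 ≤ 1)
    have := mul_le_of_le_one_right q1 (by linarith : pw T x 1 ≤ 1)
    linarith
  have hV0 := V_nonneg (M := M) hx hy hz
  have hV1 := V_le (M := M) hx hy hz
  have hr1 : rr n y = 1 := by
    by_contra hne
    have hlt : rr n y < 1 := lt_of_le_of_ne (by linarith) hne
    obtain ⟨x', hx', hv⟩ := exists_lot (M := M) hT hn hV0 (by linarith)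
    have hy' : Mixed (2 * n + 2) (pt 0) := mixed_pt (by omega)
    have hz' : Mixed n (pt 0) := mixed_pt hn
    have hQ' : Qo T n x' (pt 0) (pt 0) = 0 := by
      rw [Qo_eq hz']
      have e : pt 0 (2 * n) = 0 ∧ pt 0 (2 * n + 1) = 0 := by
        unfold pt
        rw [if_neg (by omega), if_neg (by omega)]
        exact ⟨rfl, rfl⟩
      rw [e.1, e.2]; ring
    apply hp x' (pt 0) (pt 0) hx' hy' hz'
    have c0 := U0 (T := T) (n := n) (M := M) x y z
    have c0' := U0 (T := T) (n := n) (M := M) x' (pt 0) (pt 0)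
    have c1 := U1 (n := n) (M := M) (y := y) hx hz
    have c1' := U1 (n := n) (M := M) (y := pt 0) hx' hz'
    have c2 := U2 (n := n) (M := M) (y := y) hx hz
    have c2' := U2 (n := n) (M := M) (y := pt 0) hx' hz'
    rw [rr_pt hn, hv] at c1' c2'
    rw [hQ'] at c1'
    rw [hv] at c0'
    refine ⟨?_, 2, by omega, ?_⟩
    · intro i hi
      have : i = 0 ∨ i = 1 ∨ i = 2 := by omega
      rcases this with rfl | rfl | rfl
      · rw [c0, c0']
      · rw [c1, c1']; linarith
      · rw [c2, c2']; linarith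
    · rw [c2, c2']; linarith
  refine ⟨hr1, ?_⟩
  have hy0 : y (2 * n) = 0 := by linarith
  have hy1 : y (2 * n + 1) = 0 := by linarith
  have hQ0 : Qo T n x y z = 0 := by
    rw [Qo_eq hz, hy0, hy1]; ring
  -- the second player gets at least one half
  have hhalf : V T n M x y z ≤ 1 / 2 := by
    have key : ∀ β, β = 0 ∨ β = 1 → pw T x β ≤ 1 - V T n M x y z := by
      intro β hβ
      have hm : Mixed (2 * n + 2) (pt (2 * n + β)) := mixed_pt (by omega)
      have h3 := e2 (pt (2 * n + β)) hm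
      rw [U1 (y := y) hx hz, U1 (y := pt (2 * n + β)) hx hz, hQ0, hr1, Qo_eq hz] at h3
      have h4 : rr n (pt (2 * n + β)) = 0 := by
        unfold rr
        refine sum_eq_zero fun b hb => ?_
        rw [mem_range] at hb
        unfold pt
        rw [if_neg (by omega)]
      have h5 : V T n M x (pt (2 * n + β)) z = 0 := by
        unfold V
        refine sum_eq_zero fun a _ => sum_eq_zero fun b hb => sum_eq_zero fun c _ => ?_
        rw [mem_range] at hb
        unfold pt
        rw [if_neg (by omega)]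
        ring
      rw [h4, h5] at h3
      rcases hβ with rfl | rfl
      · simp [pt] at h3; linarith
      · simp [pt] at h3; linarith
    have h0 := key 0 (Or.inl rfl)
    have h1 := key 1 (Or.inr rfl)
    linarith
  intro t ht
  have h1 := e1 (pt (2 * t)) (mixed_pt (by omega))
  have h2 := e1 (pt (2 * t + 1)) (mixed_pt (by omega))
  rw [U0, U0, V_even ht] at h1
  rw [U0, U0, V_odd ht hz, hr1] at h2
  linarith

/-! ### Completeness -/

theorem complete (hT : 0 < T) (hn : 0 < n) {y z : ℕ → ℝ} (hy : Mixed (2 * n) y) (hz : Mixed n z)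
    (h : ∀ t < T, ex n M t y z = 1 / 2) : PONE (gam T n M) := by
  set x : ℕ → ℝ := fun _ => 1 / (2 * T) with hxdef
  set y' : ℕ → ℝ := fun b => if b < 2 * n then y b else 0 with hydef
  have hT' : (0 : ℝ) < T := by exact_mod_cast hT
  have hx : Mixed (2 * T) x := by
    refine ⟨fun a _ => by rw [hxdef]; positivity, ?_⟩
    rw [hxdef]
    simp
    field_simp
  have hrr : rr n y' = 1 := by
    unfold rr
    rw [← hy.2]
    refine sum_congr rfl fun b hb => ?_
    rw [mem_range] at hb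
    simp [hydef, hb]
  have hy1 : y' (2 * n) = 0 := by simp [hydef]
  have hy2 : y' (2 * n + 1) = 0 := by simp [hydef]
  have hy' : Mixed (2 * n + 2) y' := by
    refine ⟨fun b _ => ?_, ?_⟩
    · simp only [hydef]
      split_ifs with hb
      · exact hy.1 b hb
      · exact le_rfl
    · rw [sum_range_succ, sum_range_succ, hy1, hy2]
      unfold rr at hrr
      rw [hrr]; ring
  have hex : ∀ t, ex n M t y' z = ex n M t y z := by
    intro t
    unfold ex
    refine sum_congr rfl fun b hb => sum_congr rfl fun c _ => ?_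
    rw [mem_range] at hb
    simp [hydef, hb]
  -- the values of the pure strategies of the first player
  have hVp : ∀ a < 2 * T, V T n M (pt a) y' z = 1 / 2 := by
    intro a ha
    rcases Nat.even_or_odd' a with ⟨t, rfl | rfl⟩
    · rw [V_even (by omega), hex, h t (by omega)]
    · rw [V_odd (by omega) hz, hex, h t (by omega), hrr]; norm_num
  have hVlin : ∀ x₁ : ℕ → ℝ, V T n M x₁ y' z = ∑ a ∈ range (2 * T), x₁ a * V T n M (pt a) y' z := by
    intro x₁
    conv_lhs => unfold V
    refine sum_congr rfl fun a ha => ?_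
    rw [V_pt (mem_range.1 ha), mul_sum]
    refine sum_congr rfl fun b _ => ?_
    rw [mul_sum]
    refine sum_congr rfl fun c _ => ?_
    ring
  have hVx : ∀ x₁, Mixed (2 * T) x₁ → V T n M x₁ y' z = 1 / 2 := by
    intro x₁ hx₁
    rw [hVlin, sum_congr rfl fun a ha => by rw [hVp a (mem_range.1 ha)], ← sum_mul, hx₁.2]
    ring
  -- uniform play gives one half in every cell of the team game
  have hu : ∀ (f : ℕ → ℕ → ℝ), ∑ a ∈ range (2 * T), ∑ b ∈ range (2 * n), ∑ c ∈ range n,
      x a * f b c * g1 M a b c = (∑ b ∈ range (2 * n), ∑ c ∈ range n, f b c) / 2 := by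
    intro f
    have hsum : ∀ (m : ℕ) (F : ℕ → ℝ), ∑ a ∈ range (2 * m), F a =
        ∑ t ∈ range m, (F (2 * t) + F (2 * t + 1)) := by
      intro m F
      induction m with
      | zero => simp
      | succ m ih =>
        rw [show 2 * (m + 1) = 2 * m + 1 + 1 by ring, sum_range_succ, sum_range_succ, ih,
          sum_range_succ]
        ring
    rw [hsum]
    have hcell : ∀ t, (∑ b ∈ range (2 * n), ∑ c ∈ range n, x (2 * t) * f b c * g1 M (2 * t) b c) +
        (∑ b ∈ range (2 * n), ∑ c ∈ range n, x (2 * t + 1) * f b c * g1 M (2 * t + 1) b c) =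
        (∑ b ∈ range (2 * n), ∑ c ∈ range n, f b c) * (1 / (2 * T)) := by
      intro t
      rw [← sum_add_distrib, sum_mul]
      refine sum_congr rfl fun b _ => ?_
      rw [← sum_add_distrib, sum_mul]
      refine sum_congr rfl fun c _ => ?_
      have e1 : g1 M (2 * t) b c = tv M t b c := by
        unfold g1
        rw [if_neg (by omega), show 2 * t / 2 = t by omega]
      have e2 : g1 M (2 * t + 1) b c = 1 - tv M t b c := by
        unfold g1
        rw [if_pos (by omega), show (2 * t + 1) / 2 = t by omega]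
      rw [e1, e2]
      simp only [hxdef]
      ring
    simp only [hcell]
    rw [sum_const, card_range, nsmul_eq_mul]
    field_simp
  have hVy : ∀ y₁ z₁, Mixed (2 * n + 2) y₁ → Mixed n z₁ → V T n M x y₁ z₁ = rr n y₁ / 2 := by
    intro y₁ z₁ _ hz₁
    have h1 := hu (fun b c => y₁ b * z₁ c)
    have h2 : ∑ b ∈ range (2 * n), ∑ c ∈ range n, y₁ b * z₁ c = rr n y₁ := by
      unfold rr
      refine sum_congr rfl fun b _ => ?_
      rw [← mul_sum, hz₁.2, mul_one]
    rw [h2] at h1
    rw [← h1]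
    unfold V
    refine sum_congr rfl fun a _ => sum_congr rfl fun b _ => sum_congr rfl fun c _ => ?_
    ring
  have hpw : pw T x 0 = 1 / 2 ∧ pw T x 1 = 1 / 2 := by
    have hq : ∀ m : ℕ, (∑ a ∈ range (2 * m), (if a % 2 = 0 then (1 : ℝ) else 0)) = m := by
      intro m
      induction m with
      | zero => simp
      | succ m ih =>
        rw [show 2 * (m + 1) = 2 * m + 1 + 1 by ring, sum_range_succ, sum_range_succ, ih,
          if_pos (by omega), if_neg (by omega)]
        push_cast; ring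
    have h0 : pw T x 0 = 1 / 2 := by
      unfold pw
      simp only [hxdef]
      rw [← mul_sum, hq]
      field_simp
    have := pw_add hx
    exact ⟨h0, by linarith⟩
  have hQall : ∀ y₁ z₁, Mixed n z₁ → Qo T n x y₁ z₁ = (y₁ (2 * n) + y₁ (2 * n + 1)) / 2 := by
    intro y₁ z₁ hz₁
    rw [Qo_eq hz₁, hpw.1, hpw.2]; ring
  have a0 : U (gam T n M) (2 * T) (2 * n + 2) n 0 x y' z = 1 / 2 := by rw [U0, hVx x hx]
  have a1 : U (gam T n M) (2 * T) (2 * n + 2) n 1 x y' z = 1 / 2 := by
    rw [U1 hx hz, hVx x hx, hrr, hQall y' z hz, hy1, hy2]; norm_num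
  have a2 : U (gam T n M) (2 * T) (2 * n + 2) n 2 x y' z = 1 / 2 := by
    rw [U2 hx hz, hVx x hx, hrr]; norm_num
  refine ⟨2 * T, 2 * n + 2, n, shape_gam hT hn M, x, y', z, ⟨hx, hy', hz, ?_, ?_, ?_⟩, ?_⟩
  · intro x₁ hx₁
    rw [a0, U0, hVx x₁ hx₁]
  · intro y₁ hy₁
    have := rr_add hy₁
    rw [a1, U1 hx hz, hVy y₁ z hy₁ hz, hQall y₁ z hz]
    linarith
  · intro z₁ hz₁
    rw [a2, U2 hx hz₁, hVy y' z₁ hy' hz₁, hrr]
    norm_num
  · rintro x₁ y₁ z₁ hx₁ hy₁ hz₁ ⟨hge, i, hi, hlt⟩
    have g0 := hge 0 (by omega)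
    have g2 := hge 2 (by omega)
    rw [a0, U0] at g0
    rw [a2, U2 hx₁ hz₁] at g2
    have hr := rr_add hy₁
    have q0 := hy₁.1 (2 * n) (by omega)
    have q1 := hy₁.1 (2 * n + 1) (by omega)
    have hy3 : y₁ (2 * n) = 0 := by linarith
    have hy4 : y₁ (2 * n + 1) = 0 := by linarith
    have : i = 0 ∨ i = 1 ∨ i = 2 := by omega
    rcases this with rfl | rfl | rfl
    · rw [a0, U0] at hlt; linarith
    · rw [a1, U1 hx₁ hz₁, Qo_eq hz₁, hy3, hy4] at hlt; linarith
    · rw [a2, U2 hx₁ hz₁] at hlt; linarith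

/-- The game has a Pareto optimal equilibrium if and only if all tests can be balanced. -/
theorem pone_iff (hT : 0 < T) (hn : 0 < n) : PONE (gam T n M) ↔
    ∃ y z, Mixed (2 * n) y ∧ Mixed n z ∧ ∀ t < T, ex n M t y z = 1 / 2 := by
  constructor
  · rintro ⟨n₁, n₂, n₃, hs, x, y, z, hN, hP⟩
    obtain ⟨rfl, rfl, rfl⟩ := shape_unique hs (shape_gam hT hn M)
    obtain ⟨h1, h2⟩ := sound hT hn hN hP
    exact ⟨y, z, ⟨fun b hb => hN.2.1.1 b (by omega), h1⟩, hN.2.2.1, h2⟩
  · rintro ⟨y, z, hy, hz, h⟩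
    exact complete hT hn hy hz h

end

end Pool.Agent.Q230.WL
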