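import Pool.Agent.Q230.WL.Sys
import Pool.Agent.ER.Build
import Pool.Agent.ER.Hard
import Pool.Agent.H671R2.PolyAuto

/-!
# The reduction is polynomial
-/

set_option autoImplicit false

namespace Pool.Agent.Q230.WL

open Pool.Agent.NPC Pool.Agent.NPC.ER

section

variable {α : Type} [TEnc α]

theorem poly_rule {a b c : α → ℕ} (ha : Poly a) (hb : Poly b) (hc : Poly c) :
    Poly (fun x => ((a x, b x, c x) : Rule)) := Poly.pair ha (Poly.pair hb hc)

theorem poly_mt {j l : α → ℕ} {r : α → Rule} (hj : Poly j) (hl : Poly l) (hr : Poly r) :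
    Poly (fun x => mt (j x) (l x) (r x)) :=
  Poly.and (Poly.or (Poly.decide_eq hr.fst (NPC.Poly.const 1)) (Poly.decide_eq hr.snd.fst hj))
    (Poly.or (Poly.decide_eq hr.fst (NPC.Poly.const 0)) (Poly.decide_eq hr.snd.snd hl))

theorem poly_anymt {L : α → List Rule} {j l : α → ℕ} (hL : Poly L) (hj : Poly j) (hl : Poly l) :
    Poly (fun x => (L x).any (mt (j x) (l x))) :=
  Poly.any (p := fun x r => mt (j x) (l x) r) hL
    (poly_mt (hj.comp (Poly.fst Poly.id)) (hl.comp (Poly.fst Poly.id)) (Poly.snd Poly.id))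

theorem poly_mv {t : α → Test} {b l : α → ℕ} (ht : Poly t) (hb : Poly b) (hl : Poly l) :
    Poly (fun x => mv (t x) (b x) (l x)) := by
  have h2 : Poly (fun _ : α => 2) := NPC.Poly.const 2
  have hd := Poly.div hb h2
  have h0 := poly_anymt ht.fst hd hl
  have h1 := poly_anymt ht.snd.fst hd hl
  exact Poly.ite (Poly.decide_eq h0 h1) (Poly.xor (Poly.decide_eq (Poly.mod hb h2)
    (NPC.Poly.const 0)) (Poly.decide_eq hd ht.snd.snd)) h0

theorem poly_cell {n : α → ℕ} {K : α → List Test} {a b c : α → ℕ} (hn : Poly n) (hK : Poly K)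
    (ha : Poly a) (hb : Poly b) (hc : Poly c) :
    Poly (fun x => cell (n x) (MM (K x)) (a x) (b x) (c x)) := by
  have h2 : Poly (fun _ : α => 2) := NPC.Poly.const 2
  have hv : Poly (fun x => xor (MM (K x) (a x / 2) (b x) (c x)) (decide (a x % 2 = 1))) :=
    Poly.xor (poly_mv (Poly.getD (d := fun _ => (([], [], 0) : Test)) hK (Poly.div ha h2)
      (NPC.Poly.const _)) hb hc) (Poly.decide_eq (Poly.mod ha h2) (NPC.Poly.const 1))
  have hn2 : Poly (fun x => 2 * n x) := Poly.mul h2 hn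
  unfold cell
  exact Poly.ite (Poly.decide_lt hb hn2) (Poly.pair hv (Poly.pair (Poly.not hv) (Poly.not hv)))
    (Poly.pair (NPC.Poly.const false) (Poly.pair (Poly.decide_eq (Poly.mod ha h2)
      (Poly.sub hb hn2)) (NPC.Poly.const false)))

theorem poly_gam {n : α → ℕ} {K : α → List Test} (hn : UPoly n) (hK : Poly K) :
    Poly (fun x => gam (K x).length (n x) (MM (K x))) := by
  have h2 : UPoly (fun _ : α => 2) := UPoly.const 2
  unfold gam
  refine NPC.Poly.map (F := fun x a => (List.range (2 * n x + 2)).map fun b =>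
    (List.range (n x)).map fun c => cell (n x) (MM (K x)) a b c)
    (UPoly.mul h2 (UPoly.length hK)).range ?_
  have hn1 : UPoly (fun x : α × ℕ => n x.1) := hn.comp (Poly.fst Poly.id)
  refine NPC.Poly.map (F := fun (x : α × ℕ) b =>
    (List.range (n x.1)).map fun c => cell (n x.1) (MM (K x.1)) x.2 b c)
    (UPoly.add (UPoly.mul (UPoly.const 2) hn1) (UPoly.const 2)).range ?_
  have hn2 : UPoly (fun x : (α × ℕ) × ℕ => n x.1.1) := hn1.comp (Poly.fst Poly.id)
  refine NPC.Poly.map (F := fun (x : (α × ℕ) × ℕ) c =>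
    cell (n x.1.1) (MM (K x.1.1)) x.1.2 x.2 c) hn2.range ?_
  have f1 : Poly (fun x : ((α × ℕ) × ℕ) × ℕ => x.1.1.1) :=
    Poly.fst (Poly.fst (Poly.fst Poly.id))
  exact poly_cell (hn.toPoly.comp f1) (hK.comp f1) (Poly.snd (Poly.fst (Poly.fst Poly.id)))
    (Poly.snd (Poly.fst Poly.id)) (Poly.snd Poly.id)

theorem poly_tests {n : α → ℕ} {R : α → List (List Rule × List Rule)} (hn : UPoly n)
    (hR : Poly R) : Poly (fun x => tests (n x) (R x)) := by
  unfold tests
  refine Poly.cons (Poly.pair (NPC.Poly.const _) (Poly.pair (NPC.Poly.const _) hn.toPoly))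
    (Poly.append ?_ ?_)
  · exact NPC.Poly.map (F := fun _ j => (([], [], j) : Test)) hn.range
      (Poly.pair (NPC.Poly.const _) (Poly.pair (NPC.Poly.const _) (Poly.snd Poly.id)))
  · have h : Poly (fun p : α × (List Rule × List Rule) => p.2) := Poly.snd Poly.id
    exact NPC.Poly.map (F := fun x r => ((r.1, r.2, n x) : Test)) hR
      (Poly.pair h.fst (Poly.pair h.snd (hn.toPoly.comp (Poly.fst Poly.id))))

theorem poly_dc {S : α → List Con} {c : α → ℕ} (hS : Poly S) (hc : Poly c) :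
    Poly (fun x => ((S x).getD (c x) dcon).code) :=
  poly_con_code (Poly.getD (d := fun _ => dcon) hS hc (NPC.Poly.const _))

theorem poly_nm {S : α → List Con} {o : α → ℕ} (hS : Poly S) (ho : Poly o) :
    Poly (fun x => nm (S x) (o x)) := by
  have h3 : Poly (fun _ : α => 3) := NPC.Poly.const 3
  have h := poly_dc hS (Poly.div ho h3)
  have hm := Poly.mod ho h3
  exact Poly.ite (Poly.decide_eq hm (NPC.Poly.const 0)) h.snd.fst
    (Poly.ite (Poly.decide_eq hm (NPC.Poly.const 1)) h.snd.snd.fst h.snd.snd.snd)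

theorem poly_aff {o : α → ℕ} (a b : ℕ) (ho : Poly o) : Poly (fun x => a + b * o x) :=
  Poly.add (NPC.Poly.const a) (Poly.mul (NPC.Poly.const b) ho)

theorem poly_l1 {a : α → Rule} (ha : Poly a) : Poly (fun x => [a x]) :=
  Poly.cons ha (NPC.Poly.const [])

theorem poly_l2 {a b : α → Rule} (ha : Poly a) (hb : Poly b) : Poly (fun x => [a x, b x]) :=
  Poly.cons ha (poly_l1 hb)

theorem poly_l3 {a b c : α → Rule} (ha : Poly a) (hb : Poly b) (hc : Poly c) :
    Poly (fun x => [a x, b x, c x]) := Poly.cons ha (poly_l2 hb hc)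

theorem poly_ceq {S : α → List Con} {c : α → ℕ} (hS : Poly S) (hc : Poly c) :
    Poly (fun x => ceq (S x) (c x)) := by
  have h := (poly_dc hS hc).fst
  have a : ∀ k : ℕ, Poly (fun x => k + 9 * c x) := fun k => poly_aff k 9 hc
  have z : ∀ k : ℕ, Poly (fun _ : α => k) := fun k => NPC.Poly.const k
  have r0 : ∀ k : ℕ, Poly (fun x => ((0, k + 9 * c x, 0) : Rule)) :=
    fun k => poly_rule (z 0) (a k) (z 0)
  have r2 : ∀ k m : ℕ, Poly (fun x => ((2, k + 9 * c x, m + 9 * c x) : Rule)) :=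
    fun k m => poly_rule (z 2) (a k) (a m)
  have r3 : ∀ m : ℕ, Poly (fun x => ((2, 0, m + 9 * c x) : Rule)) :=
    fun m => poly_rule (z 2) (z 0) (a m)
  unfold ceq
  refine Poly.ite (Poly.decide_eq h (z 0)) ?_ (Poly.ite (Poly.decide_eq h (z 1)) ?_ ?_)
  · exact Poly.pair (poly_l1 (r0 9)) (poly_l2 (poly_rule (z 0) (z 1) (z 0)) (r0 10))
  · exact Poly.pair (poly_l3 (r0 9) (r0 12) (r0 16)) (poly_l3 (r0 10) (r0 13) (r0 15))
  · exact Poly.pair (poly_l3 (r2 9 12) (r2 10 13) (r3 16)) (poly_l3 (r2 9 13) (r2 10 12) (r3 15))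

theorem poly_rsys {S : α → List Con} (hS : Poly S) : Poly (fun x => rsys (S x)) := by
  have hm : UPoly (fun x => (S x).length) := UPoly.length hS
  have h3m : UPoly (fun x => 3 * (S x).length) := UPoly.mul (UPoly.const 3) hm
  have hn : UPoly (fun x => 9 + 9 * (S x).length) := UPoly.add (UPoly.const 9)
    (UPoly.mul (UPoly.const 9) hm)
  have z : ∀ k : ℕ, Poly (fun _ : α × ℕ => k) := fun k => NPC.Poly.const k
  have hs : Poly (fun x : α × ℕ => x.2) := Poly.snd Poly.id
  unfold rsys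
  refine Poly.append ?_ (Poly.append ?_ (Poly.cons ?_ (Poly.append ?_ (Poly.append ?_ ?_))))
  · exact NPC.Poly.map (F := fun _ j => (([(0, j, 0)], [(1, 0, j)]) : List Rule × List Rule))
      hn.range (Poly.pair (poly_l1 (poly_rule (z 0) hs (z 0)))
        (poly_l1 (poly_rule (z 1) (z 0) hs)))
  · exact NPC.Poly.const _
  · exact NPC.Poly.const _
  · exact NPC.Poly.map (F := fun _ o => (([(0, 0, 0)],
      [(0, 9 + 3 * o, 0), (0, 10 + 3 * o, 0), (0, 11 + 3 * o, 0)]) : List Rule × List Rule))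
      h3m.range (Poly.pair (NPC.Poly.const _) (poly_l3 (poly_rule (z 0) (poly_aff 9 3 hs) (z 0))
        (poly_rule (z 0) (poly_aff 10 3 hs) (z 0)) (poly_rule (z 0) (poly_aff 11 3 hs) (z 0))))
  · refine Poly.flatMap (F := fun x o =>
      ((List.range (3 * (S x).length)).filter fun o' => decide (nm (S x) o = nm (S x) o') &&
        !decide (o = o')).map fun o' =>
        (([(0, 9 + 3 * o, 0), (0, 10 + 3 * o', 0)], [(0, 9 + 3 * o', 0), (0, 10 + 3 * o, 0)]) :
          List Rule × List Rule)) h3m.range ?_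
    refine NPC.Poly.map (F := fun (x : α × ℕ) o' =>
        (([(0, 9 + 3 * x.2, 0), (0, 10 + 3 * o', 0)], [(0, 9 + 3 * o', 0), (0, 10 + 3 * x.2, 0)]) :
          List Rule × List Rule)) ?_ ?_
    · refine Poly.filter (p := fun (x : α × ℕ) o' => decide (nm (S x.1) x.2 = nm (S x.1) o') &&
        !decide (x.2 = o')) (h3m.comp (Poly.fst Poly.id)).range ?_
      have h1 : Poly (fun x : (α × ℕ) × ℕ => S x.1.1) := hS.comp (Poly.fst (Poly.fst Poly.id))
      have h2 : Poly (fun x : (α × ℕ) × ℕ => x.1.2) := Poly.snd (Poly.fst Poly.id)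
      have h3 : Poly (fun x : (α × ℕ) × ℕ => x.2) := Poly.snd Poly.id
      exact Poly.and (Poly.decide_eq (poly_nm h1 h2) (poly_nm h1 h3))
        (Poly.not (Poly.decide_eq h2 h3))
    · have z' : Poly (fun _ : (α × ℕ) × ℕ => 0) := NPC.Poly.const 0
      have h2 : Poly (fun x : (α × ℕ) × ℕ => x.1.2) := Poly.snd (Poly.fst Poly.id)
      have h3 : Poly (fun x : (α × ℕ) × ℕ => x.2) := Poly.snd Poly.id
      exact Poly.pair (poly_l2 (poly_rule z' (poly_aff 9 3 h2) z')
        (poly_rule z' (poly_aff 10 3 h3) z')) (poly_l2 (poly_rule z' (poly_aff 9 3 h3) z')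
        (poly_rule z' (poly_aff 10 3 h2) z'))
  · exact NPC.Poly.map (F := fun x c => ceq (S x) c) hm.range
      (poly_ceq (hS.comp (Poly.fst Poly.id)) hs)

theorem poly_bgame {S : α → List Con} (hS : Poly S) :
    Poly (fun x => bgame (9 + 9 * (bsys (S x)).length) (rsys (bsys (S x)))) := by
  have hb := poly_bsys hS
  have hn : UPoly (fun x => 9 + 9 * (bsys (S x)).length) := UPoly.add (UPoly.const 9)
    (UPoly.mul (UPoly.const 9) (UPoly.length hb))
  exact poly_gam hn (poly_tests hn (poly_rsys hb))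

end

/-- Deciding whether a three-player win-lose game has a Pareto optimal Nash equilibrium is
`∃ℝ`-hard. -/
theorem hard : ERHard (lang PONE) :=
  ERHard.of_sys (poly_bgame Poly.id) correct

end Pool.Agent.Q230.WL
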