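import Pool.Agent.Q230.WL.Bil
import Pool.Agent.ER.Bounded

/-!
# The bilinear system of a bounded system of constraints
-/

set_option autoImplicit false

namespace Pool.Agent.Q230.WL

open Finset
open Pool.Agent.NPC.ER

/-- a default constraint -/
abbrev dcon : Pool.Agent.NPC.ER.Con := Pool.Agent.NPC.ER.Con.one 0

/-- the name at an occurrence -/
def nm (S : List Con) (o : ℕ) : ℕ :=
  if o % 3 = 0 then (S.getD (o / 3) dcon).code.2.1
  else if o % 3 = 1 then (S.getD (o / 3) dcon).code.2.2.1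
  else (S.getD (o / 3) dcon).code.2.2.2

/-- the equation of a constraint -/
def ceq (S : List Con) (c : ℕ) : List Rule × List Rule :=
  if (S.getD c dcon).code.1 = 0 then
    ([(0, 9 + 9 * c, 0)], [(0, 1, 0), (0, 10 + 9 * c, 0)])
  else if (S.getD c dcon).code.1 = 1 then
    ([(0, 9 + 9 * c, 0), (0, 12 + 9 * c, 0), (0, 16 + 9 * c, 0)],
      [(0, 10 + 9 * c, 0), (0, 13 + 9 * c, 0), (0, 15 + 9 * c, 0)])
  else
    ([(2, 9 + 9 * c, 12 + 9 * c), (2, 10 + 9 * c, 13 + 9 * c), (2, 0, 16 + 9 * c)],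
      [(2, 9 + 9 * c, 13 + 9 * c), (2, 10 + 9 * c, 12 + 9 * c), (2, 0, 15 + 9 * c)])

/-- the bilinear system -/
def rsys (S : List Con) : List (List Rule × List Rule) :=
  ((List.range (9 + 9 * S.length)).map fun j => ([(0, j, 0)], [(1, 0, j)])) ++
  ((List.range 7).map (fun a => ([(0, a + 2, 0)], [(0, 1, 0)])) ++
  (([(0, 0, 0)], (List.range 8).map fun a => (0, a + 1, 0)) ::
  (((List.range (3 * S.length)).map fun o =>
    ([(0, 0, 0)], [(0, 9 + 3 * o, 0), (0, 10 + 3 * o, 0), (0, 11 + 3 * o, 0)])) ++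
  (((List.range (3 * S.length)).flatMap fun o =>
    ((List.range (3 * S.length)).filter fun o' => decide (nm S o = nm S o') &&
      !decide (o = o')).map fun o' =>
      ([(0, 9 + 3 * o, 0), (0, 10 + 3 * o', 0)], [(0, 9 + 3 * o', 0), (0, 10 + 3 * o, 0)])) ++
  (List.range S.length).map (ceq S)))))

theorem mem_rsys {S : List Con} {r : List Rule × List Rule} : r ∈ rsys S ↔
    (∃ j < 9 + 9 * S.length, r = ([(0, j, 0)], [(1, 0, j)])) ∨
    (∃ a < 7, r = ([(0, a + 2, 0)], [(0, 1, 0)])) ∨
    r = ([(0, 0, 0)], (List.range 8).map fun a => (0, a + 1, 0)) ∨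
    (∃ o < 3 * S.length, r = ([(0, 0, 0)],
      [(0, 9 + 3 * o, 0), (0, 10 + 3 * o, 0), (0, 11 + 3 * o, 0)])) ∨
    (∃ o < 3 * S.length, ∃ o' < 3 * S.length, nm S o = nm S o' ∧ o ≠ o' ∧
      r = ([(0, 9 + 3 * o, 0), (0, 10 + 3 * o', 0)], [(0, 9 + 3 * o', 0), (0, 10 + 3 * o, 0)])) ∨
    (∃ c < S.length, r = ceq S c) := by
  unfold rsys
  simp only [List.mem_append, List.mem_cons, List.mem_map, List.mem_flatMap, List.mem_filter,
    List.mem_range, Bool.and_eq_true, decide_eq_true_eq, Bool.not_eq_true',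
    decide_eq_false_iff_not]
  constructor
  · rintro (⟨j, hj, rfl⟩ | ⟨a, ha, rfl⟩ | rfl | ⟨o, ho, rfl⟩ | ⟨o, ho, o', ⟨ho', h1, h2⟩, rfl⟩ |
      ⟨c, hc, rfl⟩)
    · exact Or.inl ⟨j, hj, rfl⟩
    · exact Or.inr (Or.inl ⟨a, ha, rfl⟩)
    · exact Or.inr (Or.inr (Or.inl rfl))
    · exact Or.inr (Or.inr (Or.inr (Or.inl ⟨o, ho, rfl⟩)))
    · exact Or.inr (Or.inr (Or.inr (Or.inr (Or.inl ⟨o, ho, o', ho', h1, h2, rfl⟩))))
    · exact Or.inr (Or.inr (Or.inr (Or.inr (Or.inr ⟨c, hc, rfl⟩))))
  · rintro (⟨j, hj, rfl⟩ | ⟨a, ha, rfl⟩ | rfl | ⟨o, ho, rfl⟩ | ⟨o, ho, o', ho', h1, h2, rfl⟩ |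
      ⟨c, hc, rfl⟩)
    · exact Or.inl ⟨j, hj, rfl⟩
    · exact Or.inr (Or.inl ⟨a, ha, rfl⟩)
    · exact Or.inr (Or.inr (Or.inl rfl))
    · exact Or.inr (Or.inr (Or.inr (Or.inl ⟨o, ho, rfl⟩)))
    · exact Or.inr (Or.inr (Or.inr (Or.inr (Or.inl ⟨o, ho, o', ⟨ho', h1, h2⟩, rfl⟩))))
    · exact Or.inr (Or.inr (Or.inr (Or.inr (Or.inr ⟨c, hc, rfl⟩))))

theorem wf_rsys (S : List Con) : ∀ r ∈ rsys S, WF (9 + 9 * S.length) r := by
  intro r hr
  rw [mem_rsys] at hr
  rcases hr with ⟨j, hj, rfl⟩ | ⟨a, ha, rfl⟩ | rfl | ⟨o, ho, rfl⟩ | ⟨o, ho, o', ho', h1, h2, rfl⟩ |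
      ⟨c, hc, rfl⟩
  · simp [WF, Rg]; omega
  · simp [WF, Rg]; omega
  · refine ⟨by simp, ?_, by simp [Rg], ?_⟩
    · rw [List.pairwise_map]
      refine List.pairwise_lt_range.imp fun {a b} h => ?_
      simp [Dj]; omega
    · intro q hq
      obtain ⟨a, ha, rfl⟩ := List.mem_map.1 hq
      rw [List.mem_range] at ha
      simp [Rg]; omega
  · simp [WF, Rg, Dj]; omega
  · simp [WF, Rg, Dj]; omega
  · unfold ceq
    split_ifs <;> simp [WF, Rg, Dj] <;> omega

/-! ### Soundness -/

theorem code_getD {S : List Con} {c : ℕ} (hc : c < S.length) :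
    S.getD c dcon = S[c] := List.getD_eq_getElem _ _ hc

section

variable {S : List Con} {Y Z : ℕ → ℝ}

theorem sat_of_solv {S' : List Con} (h : Solv (9 + 9 * (bsys S').length) (rsys (bsys S'))) :
    Sat S' := by
  generalize hS : bsys S' = S at h
  obtain ⟨Y, Z, hY, hZ, h⟩ := h
  simp only [mem_rsys] at h
  have hcopy : ∀ j < 9 + 9 * S.length, Y j = Z j := by
    intro j hj
    have := h _ (Or.inl ⟨j, hj, rfl⟩)
    simpa [wt] using this
  have he : ∀ a < 8, Y (a + 1) = Y 1 := by
    intro a ha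
    rcases Nat.eq_zero_or_pos a with rfl | h0
    · rfl
    · have := h _ (Or.inr (Or.inl ⟨a - 1, by omega, rfl⟩))
      rw [show a - 1 + 2 = a + 1 by omega] at this
      simpa [wt] using this
  have h8 : Y 0 = 8 * Y 1 := by
    have := h _ (Or.inr (Or.inr (Or.inl rfl)))
    have e : ((List.range 8).map fun a => ((0, a + 1, 0) : Rule)).map (wt Y Z) =
        (List.range 8).map fun _ => Y 1 := by
      rw [List.map_map]
      refine List.map_congr_left fun a ha => ?_
      rw [List.mem_range] at ha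
      simp only [Function.comp, wt]
      rw [← he a ha]
      simp
    rw [e] at this
    simp [wt] at this
    linarith
  have htri : ∀ o < 3 * S.length, Y 0 = Y (9 + 3 * o) + Y (10 + 3 * o) + Y (11 + 3 * o) := by
    intro o ho
    have := h _ (Or.inr (Or.inr (Or.inr (Or.inl ⟨o, ho, rfl⟩))))
    simp [wt] at this
    linarith
  have hsame : ∀ o < 3 * S.length, ∀ o' < 3 * S.length, nm S o = nm S o' →
      Y (9 + 3 * o) - Y (10 + 3 * o) = Y (9 + 3 * o') - Y (10 + 3 * o') := by
    intro o ho o' ho' hn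
    by_cases hoo : o = o'
    · rw [hoo]
    · have := h _ (Or.inr (Or.inr (Or.inr (Or.inr (Or.inl ⟨o, ho, o', ho', hn, hoo, rfl⟩)))))
      simp [wt] at this
      linarith
  have hceq : ∀ c < S.length, ((ceq S c).1.map (wt Y Z)).sum = ((ceq S c).2.map (wt Y Z)).sum :=
    fun c hc => h _ (Or.inr (Or.inr (Or.inr (Or.inr (Or.inr ⟨c, hc, rfl⟩)))))
  have hpos : 0 < Y 0 := by
    by_contra hle
    have hle' : Y 0 ≤ 0 := not_lt.1 hle
    have hz : ∀ j < 9 + 9 * S.length, Y j ≤ 0 := by
      intro j hj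
      by_cases h0 : j = 0
      · rw [h0]; exact hle'
      by_cases h9 : j < 9
      · have := he (j - 1) (by omega)
        rw [show j - 1 + 1 = j by omega] at this
        linarith
      · have h3 := htri ((j - 9) / 3) (by omega)
        have p0 := hY.1 (9 + 3 * ((j - 9) / 3)) (by omega)
        have p1 := hY.1 (10 + 3 * ((j - 9) / 3)) (by omega)
        have p2 := hY.1 (11 + 3 * ((j - 9) / 3)) (by omega)
        have hj3 : j = 9 + 3 * ((j - 9) / 3) ∨ j = 10 + 3 * ((j - 9) / 3) ∨
            j = 11 + 3 * ((j - 9) / 3) := by omega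
        rcases hj3 with e | e | e <;> rw [e] <;> linarith
    have := sum_nonpos fun j hj => hz j (mem_range.1 hj)
    rw [hY.2] at this
    linarith
  -- the values
  classical
  let val : ℕ → ℝ := fun o => (Y (9 + 3 * o) - Y (10 + 3 * o)) / Y 0
  let w : ℕ → ℝ := fun i => if h : ∃ o < 3 * S.length, nm S o = i then val h.choose else 0
  have hw : ∀ o < 3 * S.length, w (nm S o) = val o := by
    intro o ho
    have hex : ∃ o' < 3 * S.length, nm S o' = nm S o := ⟨o, ho, rfl⟩
    have h1 : w (nm S o) = val hex.choose := dif_pos hex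
    rw [h1]
    show (_ - _) / _ = (_ - _) / _
    rw [hsame _ hex.choose_spec.1 o ho hex.choose_spec.2]
  refine sat_of_bsys_const (κ := 1 / 8) (by norm_num) (w := w) ?_
  rw [hS]
  intro cc hcc
  obtain ⟨c, hc, rfl⟩ := List.getElem_of_mem hcc
  have hq := hceq c hc
  have n0 : nm S (3 * c) = S[c].code.2.1 := by
    unfold nm
    rw [if_pos (by omega), show 3 * c / 3 = c by omega, code_getD hc]
  have n1 : nm S (3 * c + 1) = S[c].code.2.2.1 := by
    unfold nm
    rw [if_neg (by omega), if_pos (by omega), show (3 * c + 1) / 3 = c by omega, code_getD hc]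
  have n2 : nm S (3 * c + 2) = S[c].code.2.2.2 := by
    unfold nm
    rw [if_neg (by omega), if_neg (by omega), show (3 * c + 2) / 3 = c by omega, code_getD hc]
  have v0 := hw (3 * c) (by omega)
  have v1 := hw (3 * c + 1) (by omega)
  have v2 := hw (3 * c + 2) (by omega)
  rw [n0] at v0
  rw [n1] at v1
  rw [n2] at v2
  have u0 : val (3 * c) = (Y (9 + 9 * c) - Y (10 + 9 * c)) / Y 0 := by
    simp only [val]
    rw [show 9 + 3 * (3 * c) = 9 + 9 * c by ring, show 10 + 3 * (3 * c) = 10 + 9 * c by ring]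
  have u1 : val (3 * c + 1) = (Y (12 + 9 * c) - Y (13 + 9 * c)) / Y 0 := by
    simp only [val]
    rw [show 9 + 3 * (3 * c + 1) = 12 + 9 * c by ring,
      show 10 + 3 * (3 * c + 1) = 13 + 9 * c by ring]
  have u2 : val (3 * c + 2) = (Y (15 + 9 * c) - Y (16 + 9 * c)) / Y 0 := by
    simp only [val]
    rw [show 9 + 3 * (3 * c + 2) = 15 + 9 * c by ring,
      show 10 + 3 * (3 * c + 2) = 16 + 9 * c by ring]
  unfold ceq at hq
  rw [code_getD hc] at hq
  have hne := hpos.ne'
  rcases hcon : S[c] with i | ⟨i, j, k⟩ | ⟨i, j, k⟩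
  · rw [hcon] at hq v0
    simp [wt, Con.code] at hq v0
    show w i = 1 / 8
    rw [v0, u0, div_eq_iff hne]
    linarith
  · rw [hcon] at hq v0 v1 v2
    simp [wt, Con.code] at hq v0 v1 v2
    show w i + w j = w k
    rw [v0, v1, v2, u0, u1, u2, ← add_div]
    congr 1
    linarith
  · rw [hcon] at hq v0 v1 v2
    simp [wt, Con.code] at hq v0 v1 v2
    rw [← hcopy (12 + 9 * c) (by omega), ← hcopy (13 + 9 * c) (by omega),
      ← hcopy (15 + 9 * c) (by omega), ← hcopy (16 + 9 * c) (by omega)] at hq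
    show w i * w j = w k
    rw [v0, v1, v2, u0, u1, u2]
    field_simp
    linarith

/-! ### Completeness -/

/-- the weights of a solution -/
noncomputable def wts (S : List Con) (w : ℕ → ℝ) (j : ℕ) : ℝ :=
  if j = 0 then 1 / (2 + 3 * S.length)
  else if j < 9 then 1 / (2 + 3 * S.length) / 8
  else if (j - 9) % 3 = 0 then 1 / (2 + 3 * S.length) * max (w (nm S ((j - 9) / 3))) 0
  else if (j - 9) % 3 = 1 then 1 / (2 + 3 * S.length) * max (-w (nm S ((j - 9) / 3))) 0
  else 1 / (2 + 3 * S.length) * (1 - |w (nm S ((j - 9) / 3))|)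

theorem wts_zero (S : List Con) (w : ℕ → ℝ) : wts S w 0 = 1 / (2 + 3 * S.length) := by
  unfold wts; rw [if_pos rfl]

theorem wts_e {a : ℕ} (ha : a < 8) (S : List Con) (w : ℕ → ℝ) :
    wts S w (a + 1) = 1 / (2 + 3 * S.length) / 8 := by
  unfold wts; rw [if_neg (by omega), if_pos (by omega)]

theorem wts_p (S : List Con) (w : ℕ → ℝ) (o : ℕ) :
    wts S w (9 + 3 * o) = 1 / (2 + 3 * S.length) * max (w (nm S o)) 0 := by
  unfold wts
  rw [if_neg (by omega), if_neg (by omega), if_pos (by omega), show (9 + 3 * o - 9) / 3 = o by omega]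

theorem wts_n (S : List Con) (w : ℕ → ℝ) (o : ℕ) :
    wts S w (10 + 3 * o) = 1 / (2 + 3 * S.length) * max (-w (nm S o)) 0 := by
  unfold wts
  rw [if_neg (by omega), if_neg (by omega), if_neg (by omega), if_pos (by omega),
    show (10 + 3 * o - 9) / 3 = o by omega]

theorem wts_s (S : List Con) (w : ℕ → ℝ) (o : ℕ) :
    wts S w (11 + 3 * o) = 1 / (2 + 3 * S.length) * (1 - |w (nm S o)|) := by
  unfold wts
  rw [if_neg (by omega), if_neg (by omega), if_neg (by omega), if_neg (by omega),
    show (11 + 3 * o - 9) / 3 = o by omega]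

theorem max_sub_max (v : ℝ) : max v 0 - max (-v) 0 = v := by
  rcases le_total v 0 with h | h
  · rw [max_eq_right h, max_eq_left (by linarith)]; ring
  · rw [max_eq_left h, max_eq_right (by linarith)]; ring

theorem max_add_max (v : ℝ) : max v 0 + max (-v) 0 = |v| := by
  rcases le_total v 0 with h | h
  · rw [max_eq_right h, max_eq_left (by linarith), abs_of_nonpos h]; ring
  · rw [max_eq_left h, max_eq_right (by linarith), abs_of_nonneg h]; ring

theorem sum_three (m : ℕ) (F : ℕ → ℝ) : ∑ j ∈ range (9 + 3 * m), F j =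
    ∑ j ∈ range 9, F j + ∑ o ∈ range m, (F (9 + 3 * o) + F (10 + 3 * o) + F (11 + 3 * o)) := by
  induction m with
  | zero => simp
  | succ m ih =>
    rw [show 9 + 3 * (m + 1) = 11 + 3 * m + 1 by ring, sum_range_succ F (11 + 3 * m),
      show 11 + 3 * m = 10 + 3 * m + 1 by ring, sum_range_succ F (10 + 3 * m),
      show 10 + 3 * m = 9 + 3 * m + 1 by ring, sum_range_succ F (9 + 3 * m), ih,
      sum_range_succ _ m, show 9 + 3 * m + 1 = 10 + 3 * m by ring,
      show 10 + 3 * m + 1 = 11 + 3 * m by ring]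
    ring

theorem mixed_wts {w : ℕ → ℝ} (hw : ∀ i, |w i| ≤ 1 / 8) :
    Mixed (9 + 9 * S.length) (wts S w) := by
  have hL : (0 : ℝ) < 2 + 3 * S.length := by positivity
  constructor
  · intro j _
    unfold wts
    have := hw (nm S ((j - 9) / 3))
    split_ifs
    · positivity
    · positivity
    · exact mul_nonneg (by positivity) (le_max_right _ _)
    · exact mul_nonneg (by positivity) (le_max_right _ _)
    · exact mul_nonneg (by positivity) (by linarith)
  · rw [show 9 + 9 * S.length = 9 + 3 * (3 * S.length) by ring, sum_three]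
    have h1 : ∀ o ∈ range (3 * S.length), wts S w (9 + 3 * o) + wts S w (10 + 3 * o) +
        wts S w (11 + 3 * o) = 1 / (2 + 3 * S.length) := by
      intro o _
      rw [wts_p, wts_n, wts_s, ← max_add_max]
      ring
    rw [sum_congr rfl h1, sum_const, card_range, nsmul_eq_mul, sum_range_succ', wts_zero,
      sum_congr rfl fun a ha => wts_e (mem_range.1 ha) S w, sum_const, card_range, nsmul_eq_mul]
    push_cast
    field_simp
    ring

theorem solv_of_sat {S' : List Con} (h : Sat S') :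
    Solv (9 + 9 * (bsys S').length) (rsys (bsys S')) := by
  obtain ⟨w, hb, hw⟩ := bsys_of_sat h
  generalize bsys S' = S at hw
  have hL : (0 : ℝ) < 2 + 3 * S.length := by positivity
  refine ⟨wts S w, wts S w, mixed_wts hb, mixed_wts hb, ?_⟩
  intro r hr
  rw [mem_rsys] at hr
  have hd : ∀ o, wts S w (9 + 3 * o) - wts S w (10 + 3 * o) =
      1 / (2 + 3 * S.length) * w (nm S o) := by
    intro o
    rw [wts_p, wts_n, ← mul_sub, max_sub_max]
  rcases hr with ⟨j, hj, rfl⟩ | ⟨a, ha, rfl⟩ | rfl | ⟨o, ho, rfl⟩ | ⟨o, ho, o', ho', h1, h2, rfl⟩ |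
      ⟨c, hc, rfl⟩
  · simp [wt]
  · have e1 := wts_e (show a + 1 < 8 by omega) S w
    have e2 := wts_e (show 0 < 8 by omega) S w
    simp only [List.map_cons, List.map_nil, List.sum_cons, List.sum_nil, wt]
    simp only [zero_ne_one, if_false, if_true, mul_one, add_zero]
    rw [e1]
    exact e2.symm
  · have e : ((List.range 8).map fun a => ((0, a + 1, 0) : Rule)).map (wt (wts S w) (wts S w)) =
        (List.range 8).map fun _ => 1 / (2 + 3 * (S.length : ℝ)) / 8 := by
      rw [List.map_map]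
      refine List.map_congr_left fun a ha => ?_
      rw [List.mem_range] at ha
      simp only [Function.comp, wt]
      rw [← wts_e ha S w]
      simp
    simp only [e]
    simp only [List.map_cons, List.map_nil, List.sum_cons, List.sum_nil, wt, zero_ne_one,
      if_false, if_true, mul_one, add_zero, wts_zero]
    simp
    ring
  · have e := max_add_max (w (nm S o))
    simp only [List.map_cons, List.map_nil, List.sum_cons, List.sum_nil, wt, zero_ne_one,
      if_false, if_true, mul_one, add_zero, wts_zero, wts_p, wts_n, wts_s]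
    rw [← e]
    ring
  · have e1 := hd o
    have e2 := hd o'
    rw [← h1] at e2
    simp only [List.map_cons, List.map_nil, List.sum_cons, List.sum_nil, wt, zero_ne_one,
      if_false, if_true, mul_one, add_zero]
    linarith
  · have hcon := hw S[c] (List.getElem_mem hc)
    have n0 : nm S (3 * c) = S[c].code.2.1 := by
      unfold nm
      rw [if_pos (by omega), show 3 * c / 3 = c by omega, code_getD hc]
    have n1 : nm S (3 * c + 1) = S[c].code.2.2.1 := by
      unfold nm
      rw [if_neg (by omega), if_pos (by omega), show (3 * c + 1) / 3 = c by omega, code_getD hc]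
    have n2 : nm S (3 * c + 2) = S[c].code.2.2.2 := by
      unfold nm
      rw [if_neg (by omega), if_neg (by omega), show (3 * c + 2) / 3 = c by omega, code_getD hc]
    have v0 := hd (3 * c)
    have v1 := hd (3 * c + 1)
    have v2 := hd (3 * c + 2)
    rw [n0, show 9 + 3 * (3 * c) = 9 + 9 * c by ring,
      show 10 + 3 * (3 * c) = 10 + 9 * c by ring] at v0
    rw [n1, show 9 + 3 * (3 * c + 1) = 12 + 9 * c by ring,
      show 10 + 3 * (3 * c + 1) = 13 + 9 * c by ring] at v1
    rw [n2, show 9 + 3 * (3 * c + 2) = 15 + 9 * c by ring,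
      show 10 + 3 * (3 * c + 2) = 16 + 9 * c by ring] at v2
    have e1 : wts S w 1 = 1 / (2 + 3 * S.length) / 8 := wts_e (show 0 < 8 by omega) S w
    unfold ceq
    rw [code_getD hc]
    rcases hC : S[c] with i | ⟨i, j, k⟩ | ⟨i, j, k⟩
    · rw [hC] at hcon v0
      simp only [Con.HoldsC] at hcon
      rw [if_pos (by simp [Con.code])]
      simp only [Con.code] at v0
      rw [hcon] at v0
      simp only [List.map_cons, List.map_nil, List.sum_cons, List.sum_nil, wt, zero_ne_one,
        if_false, if_true, mul_one, add_zero]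
      rw [e1]
      linarith
    · rw [hC] at hcon v0 v1 v2
      simp only [Con.HoldsC] at hcon
      rw [if_neg (by simp [Con.code]), if_pos (by simp [Con.code])]
      simp only [Con.code] at v0 v1 v2
      rw [← hcon] at v2
      simp only [List.map_cons, List.map_nil, List.sum_cons, List.sum_nil, wt, zero_ne_one,
        if_false, if_true, mul_one, add_zero]
      linarith
    · rw [hC] at hcon v0 v1 v2
      simp only [Con.HoldsC] at hcon
      rw [if_neg (by simp [Con.code]), if_neg (by simp [Con.code])]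
      simp only [Con.code] at v0 v1 v2
      rw [← hcon] at v2
      have hmul : (wts S w (9 + 9 * c) - wts S w (10 + 9 * c)) *
          (wts S w (12 + 9 * c) - wts S w (13 + 9 * c)) =
          wts S w 0 * (wts S w (15 + 9 * c) - wts S w (16 + 9 * c)) := by
        rw [v0, v1, v2, wts_zero]
        ring
      simp [wt]
      linarith

end

/-- The reduction is correct. -/
theorem correct (S : List Con) :
    Sat S ↔ PONE (bgame (9 + 9 * (bsys S).length) (rsys (bsys S))) := by
  rw [bgame_iff (by omega) (wf_rsys _)]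
  exact ⟨solv_of_sat, sat_of_solv⟩

end Pool.Agent.Q230.WL
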